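import Pool.Agent.Lib.MP_1cf7f7_al.Final

/-! The Anick automorphism and its first coordinate are wild over every field. -/

namespace Pool.Agent.Results.MP_1cf7f7_al.AnickWild

open Pool.Agent.Lib.MP_1cf7f7_al FreeAlgebra

theorem result (k : Type) [Field k] :
    ∃ δ : FreeAlgebra k (Fin 3) ≃ₐ[k] FreeAlgebra k (Fin 3),
      δ (ι k 0) = ι k 0 + ι k 2 * (ι k 0 * ι k 2 - ι k 2 * ι k 1) ∧
      δ (ι k 1) = ι k 1 + (ι k 0 * ι k 2 - ι k 2 * ι k 1) * ι k 2 ∧
      δ (ι k 2) = ι k 2 ∧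
      ∀ g ∈ Tame k 3, g (ι k 0) ≠ δ (ι k 0) := by
  let E : FreeAlgebra k (Fin 3) → FreeAlgebra k (Fin 3) →ₐ[k] FreeAlgebra k (Fin 3) := fun p =>
    FreeAlgebra.lift k ![ι k 0 + ι k 2 * p, ι k 1 + p * ι k 2, ι k 2]
  let w : FreeAlgebra k (Fin 3) := ι k 0 * ι k 2 - ι k 2 * ι k 1
  have h1 : (E w).comp (E (-w)) = AlgHom.id k _ := by
    apply FreeAlgebra.hom_ext
    funext i
    fin_cases i <;> simp [E, w] <;> noncomm_ring
  have h2 : (E (-w)).comp (E w) = AlgHom.id k _ := by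
    apply FreeAlgebra.hom_ext
    funext i
    fin_cases i <;> simp [E, w] <;> noncomm_ring
  refine ⟨AlgEquiv.ofAlgHom (E w) (E (-w)) h1 h2, by simp [E, w], by simp [E, w],
    by simp [E], fun g hg hne => ?_⟩
  have hx : g (ι k 0) = ι k 0 + ι k 2 * (ι k 0 * ι k 2 - ι k 2 * ι k 1) := by
    rw [hne]; simp [E, w]
  have hd0 : t2 k - t3 k ≠ 0 := by
    intro h
    have := congrArg (fun f : Cusp k => (f : Polynomial k).coeff 2) h
    simp [t2, t3, Polynomial.coeff_X_pow] at this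
  have hθ : (![0, 0, t2 k] - ![0, 0, t3 k] : Fin 3 → Cusp k) = (t2 k - t3 k) • ![0, 0, 1] := by
    funext i
    fin_cases i <;> simp
  have hP := (tameOver_le (R := Cusp k) (Ideal.span {t2 k - t3 k}) (Submodule.zero_mem _)
    (tame_le_tameOver_zero hg)).2 ![0, 0, t2 k] ![0, 0, t3 k] (fun i => by
      fin_cases i <;> simp)
  rw [hθ] at hP
  have hB := blk_of_mem (i := 0) (j := 1) (by
      simp only [t2, t3, Subalgebra.coe_sub]
      exact dvd_sub dvd_rfl (pow_dvd_pow _ (by norm_num))) hd0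
    (fun ξ _ => ⟨ξ 2, by funext i; fin_cases i <;> simp⟩) hP
  refine cohn_ne (by decide) (by simp) (by simp) hB (u := t3 k) (v := t2 k)
    (h := Polynomial.X ^ 2) (c₁ := Polynomial.X) (c₂ := 1) (x := 0) (y := 1)
    (by simp [t3, pow_succ]) (by simp [t2]) (dvd_pow_self _ (by norm_num)) (by simp)
    (by simp [psi]) (fun ξ => ?_) (fun ξ => ?_)
  · rw [J_apply, hx]; simp
  · rw [J_apply, hx]; simp

end Pool.Agent.Results.MP_1cf7f7_al.AnickWild
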