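import Pool.Agent.Lib.MP_1cf7f7_al.Comm

/-! The automorphism of `k[x₁, x₂, y₁, y₂]` (indices `0, 1, 2, 3`) induced by the Yagzhev
automorphism is tame, even by factors fixing `y₂`, when the characteristic is not two. -/

namespace Pool.Agent.Results.MP_1cf7f7_al.CommTame

open Pool.Agent.Lib.MP_1cf7f7_al.Comm MvPolynomial

theorem result (k : Type) [Field k] (h2 : (2 : k) ≠ 0) :
    ∃ φ : MvPolynomial (Fin 4) k ≃ₐ[k] MvPolynomial (Fin 4) k,
      φ (X 0) = X 0 + X 2 * (X 0 * X 3 - X 2 * X 1) ∧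
      φ (X 1) = X 1 + (X 0 * X 3 - X 2 * X 1) * X 3 ∧
      φ (X 2) = X 2 ∧ φ (X 3) = X 3 ∧ φ ∈ TameFixing k (3 : Fin 4) := by
  obtain ⟨N, hN, n0, n2, n1, n3⟩ := exists_nagata (k := k) (x := (0 : Fin 4)) (y := 3) (s := 2)
    (t := 1) (by decide) (by decide) (by decide) (by decide) (by decide) (by decide) 1 2⁻¹
    (X 0 * X 3 - X 2 ^ 2 + X 1 ^ 2) (by simp)
  obtain ⟨M, hM, m0, m1, m2, m3⟩ := exists_nagata (k := k) (x := (0 : Fin 4)) (y := 3) (s := 1)
    (t := 2) (by decide) (by decide) (by decide) (by decide) (by decide) (by decide) (-1) 2⁻¹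
    (X 0 * X 3 - X 2 ^ 2 + X 1 ^ 2) (by simp; ring)
  obtain ⟨U, hU, u2, u⟩ := exists_elem (k := k) (m := (3 : Fin 4)) (i := 2) (by decide)
    one_ne_zero (neg_mem (X_mem (j := 1) (by decide)))
  obtain ⟨U', hU', u2', u'⟩ := exists_elem (k := k) (m := (3 : Fin 4)) (i := 2) (by decide)
    one_ne_zero (X_mem (j := 1) (by decide))
  obtain ⟨V, hV, v1, v⟩ := exists_elem (k := k) (m := (3 : Fin 4)) (i := 1) (by decide)
    h2 (X_mem (j := 2) (by decide))
  obtain ⟨V', hV', v1', v'⟩ := exists_elem (k := k) (m := (3 : Fin 4)) (i := 1) (by decide)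
    (inv_ne_zero h2) (neg_mem (mul_mem (C_mem 2⁻¹) (X_mem (j := 2) (by decide))))
  have hh : (C (2⁻¹ : k) : MvPolynomial (Fin 4) k) * 2 = 1 := by
    rw [← map_ofNat C 2, ← map_mul, inv_mul_cancel₀ h2, map_one]
  have hw : N (X 0 * X 3 - X 2 ^ 2 + X 1 ^ 2) = X 0 * X 3 - X 2 ^ 2 + X 1 ^ 2 := by
    simp only [map_add, map_sub, map_mul, map_pow, n0, n1, n2, n3, map_one]
    ring
  set w : MvPolynomial (Fin 4) k := X 0 * X 3 - X 2 ^ 2 + X 1 ^ 2 with hwd
  have p0 : (N * M) (X 0) = X 0 + w * (X 2 - X 1) := by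
    rw [AlgEquiv.mul_apply, m0]
    simp only [map_add, map_mul, map_pow, map_neg, map_one, map_ofNat, equiv_C, hw, n0, n1, n3]
    linear_combination (w * (X 2 - X 1)) * hh
  have p1 : (N * M) (X 1) = X 1 + C 2⁻¹ * w * X 3 := by
    rw [AlgEquiv.mul_apply, m1]
    simp only [map_add, map_mul, equiv_C, hw, n1, n3]
  have p2 : (N * M) (X 2) = X 2 + C 2⁻¹ * w * X 3 := by
    rw [AlgEquiv.mul_apply, m2, n2]
  have p3 : (N * M) (X 3) = X 3 := by
    rw [AlgEquiv.mul_apply, m3, n3]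
  have q0 : (V' * U') (X 0) = X 0 := by
    rw [AlgEquiv.mul_apply, u' 0 (by decide), v' 0 (by decide)]
  have q3 : (V' * U') (X 3) = X 3 := by
    rw [AlgEquiv.mul_apply, u' 3 (by decide), v' 3 (by decide)]
  have q1 : (V' * U') (X 1) = C 2⁻¹ * (X 1 - X 2) := by
    rw [AlgEquiv.mul_apply, u' 1 (by decide), v1', smul_eq_C_mul]; ring
  have q2 : (V' * U') (X 2) = C 2⁻¹ * (X 1 + X 2) := by
    rw [AlgEquiv.mul_apply, u2', one_smul, map_add, v1', v' 2 (by decide), smul_eq_C_mul]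
    linear_combination (-X 2) * hh
  have qw : (V' * U') w = X 0 * X 3 - X 2 * X 1 := by
    simp only [hwd, map_add, map_sub, map_mul, map_pow, q0, q1, q2, q3]
    linear_combination (-(X 1 * X 2) * (C 2⁻¹ * 2 + 1)) * hh
  have r0 : (U * V) (X 0) = X 0 := by
    rw [AlgEquiv.mul_apply, v 0 (by decide), u 0 (by decide)]
  have r3 : (U * V) (X 3) = X 3 := by
    rw [AlgEquiv.mul_apply, v 3 (by decide), u 3 (by decide)]
  have r2 : (U * V) (X 2) = X 2 - X 1 := by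
    rw [AlgEquiv.mul_apply, v 2 (by decide), u2, one_smul, sub_eq_add_neg]
  have r1 : (U * V) (X 1) = X 2 + X 1 := by
    rw [AlgEquiv.mul_apply, v1, map_add, map_smul, u 1 (by decide), u2, one_smul, two_smul]
    ring
  refine ⟨(V' * U') * ((N * M) * (U * V)), ?_, ?_, ?_, ?_,
    mul_mem (mul_mem hV' hU') (mul_mem (mul_mem hN hM) (mul_mem hU hV))⟩
  · rw [AlgEquiv.mul_apply, AlgEquiv.mul_apply (N * M), r0, p0]
    simp only [map_add, map_sub, map_mul, q0, q1, q2, qw]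
    linear_combination ((X 0 * X 3 - X 2 * X 1) * X 2) * hh
  · rw [AlgEquiv.mul_apply, AlgEquiv.mul_apply (N * M), r1, map_add, p1, p2]
    simp only [map_add, map_mul, equiv_C, q1, q2, q3, qw]
    linear_combination (X 1 + (X 0 * X 3 - X 2 * X 1) * X 3) * hh
  · rw [AlgEquiv.mul_apply, AlgEquiv.mul_apply (N * M), r2, map_sub, p1, p2]
    simp only [map_add, map_sub, map_mul, equiv_C, q1, q2, q3, qw]
    linear_combination (X 2) * hh
  · rw [AlgEquiv.mul_apply, AlgEquiv.mul_apply (N * M), r3, p3, q3]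

end Pool.Agent.Results.MP_1cf7f7_al.CommTame
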