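import Pool.Agent.Lib.MP_1cf7f7_al.CommDefs
import Pool.Agent.Lib.MP_1cf7f7_al.Two2

/-! Over every field of characteristic two the automorphism of `k[x₁, x₂, y₁, y₂]` (indices
`0, 1, 2, 3`) induced by the Yagzhev automorphism is wild. -/

namespace Pool.Agent.Results.MP_1cf7f7_al.CommWildTwo

open Pool.Agent.Lib.MP_1cf7f7_al MvPolynomial

theorem result (k : Type) [Field k] [CharP k 2] :
    ∃ ψ : MvPolynomial (Fin 4) k ≃ₐ[k] MvPolynomial (Fin 4) k,
      ψ (X 0) = X 0 + X 2 * (X 0 * X 3 - X 2 * X 1) ∧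
      ψ (X 1) = X 1 + (X 0 * X 3 - X 2 * X 1) * X 3 ∧
      ψ (X 2) = X 2 ∧ ψ (X 3) = X 3 ∧
      ∀ g ∈ Subgroup.closure {g : MvPolynomial (Fin 4) k ≃ₐ[k] MvPolynomial (Fin 4) k |
        Comm.IsLinear g ∨ Comm.IsElementary g}, g (X 0) ≠ ψ (X 0) := by
  have h2 : (2 : k) = 0 := by exact_mod_cast CharP.cast_eq_zero k 2
  have hj : Two.std k 0 + Two.std k 2 * (Two.std k 0 * Two.std k 3 - Two.std k 2 * Two.std k 1) =
      TrivSqZeroExt.inr (1 + Polynomial.C Polynomial.X * Polynomial.X,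
        -(Polynomial.C Polynomial.X * Polynomial.C Polynomial.X)) := by
    ext1
    · simp [Two.std]
    · simp [Two.std, TrivSqZeroExt.snd_mul]
      ring
  let E : MvPolynomial (Fin 4) k → MvPolynomial (Fin 4) k →ₐ[k] MvPolynomial (Fin 4) k :=
    fun p => aeval ![X 0 + X 2 * p, X 1 + p * X 3, X 2, X 3]
  let w : MvPolynomial (Fin 4) k := X 0 * X 3 - X 2 * X 1
  have e1 : (E w).comp (E (-w)) = AlgHom.id k _ := by
    apply MvPolynomial.algHom_ext
    intro i
    fin_cases i <;> simp [E, w] <;> ring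
  have e2 : (E (-w)).comp (E w) = AlgHom.id k _ := by
    apply MvPolynomial.algHom_ext
    intro i
    fin_cases i <;> simp [E, w] <;> ring
  refine ⟨AlgEquiv.ofAlgHom (E w) (E (-w)) e1 e2, by simp [E, w], by simp [E, w],
    by simp [E], by simp [E], fun g hg hne => ?_⟩
  refine Two.not_inv h2 ?_ ((Two.inv_tame h2 _ (linearIndependent_X (Fin 4) k) hg
    (aeval (Two.std k))).1 (by simpa using Two.inv_std))
  simp only [hne, ← hj]
  simp [E, w]

end Pool.Agent.Results.MP_1cf7f7_al.CommWildTwo
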