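import Pool.Agent.Lib.MP_1cf7f7_al.Defs
import Pool.Agent.Lib.MP_1cf7f7_al.All.Tame

/-! Over every field the Yagzhev automorphism of the free algebra on
`x₁, x₂, y₁, y₂` (indices `0, 1, 2, 3`) is wild. -/

namespace Pool.Agent.Results.MP_1cf7f7_al.WildAll

open Pool.Agent.Lib.MP_1cf7f7_al FreeAlgebra

theorem result (k : Type) [Field k] :
    ∃ φ : FreeAlgebra k (Fin 4) ≃ₐ[k] FreeAlgebra k (Fin 4),
      φ (ι k 0) = ι k 0 + ι k 2 * (ι k 0 * ι k 3 - ι k 2 * ι k 1) ∧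
      φ (ι k 1) = ι k 1 + (ι k 0 * ι k 3 - ι k 2 * ι k 1) * ι k 3 ∧
      φ (ι k 2) = ι k 2 ∧ φ (ι k 3) = ι k 3 ∧ φ ∉ Tame k 4 := by
  let E : FreeAlgebra k (Fin 4) → FreeAlgebra k (Fin 4) →ₐ[k] FreeAlgebra k (Fin 4) := fun p =>
    FreeAlgebra.lift k ![ι k 0 + ι k 2 * p, ι k 1 + p * ι k 3, ι k 2, ι k 3]
  let w : FreeAlgebra k (Fin 4) := ι k 0 * ι k 3 - ι k 2 * ι k 1
  have e1 : (E w).comp (E (-w)) = AlgHom.id k _ := by
    apply FreeAlgebra.hom_ext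
    funext i
    fin_cases i <;> simp [E, w] <;> noncomm_ring
  have e2 : (E (-w)).comp (E w) = AlgHom.id k _ := by
    apply FreeAlgebra.hom_ext
    funext i
    fin_cases i <;> simp [E, w] <;> noncomm_ring
  exact ⟨AlgEquiv.ofAlgHom (E w) (E (-w)) e1 e2, by simp [E, w], by simp [E, w],
    by simp [E], by simp [E], fun h => All.not_tame _ h (by simp [E, w])⟩

end Pool.Agent.Results.MP_1cf7f7_al.WildAll
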